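import Pool.Agent.H54.Radon.Final

namespace Pool.Agent.Results.MP_173ebf_co.DPlusThree

open Pool.Agent.H54.Radon

/-- Characterization of the Radon vectors of sets of `d+3` points in general position. -/
theorem result (d : ℕ) (hd : 1 ≤ d) (r : ℕ → ℕ) :
    (∃ S : Finset (Fin d → ℝ), S.card = d + 3 ∧ GenPos S ∧
      ∀ s, 1 ≤ s → s ≤ (d + 3) / 2 → radonCount S s = r s) ↔ IsVec (d + 3) r :=
  main d hd r

end Pool.Agent.Results.MP_173ebf_co.DPlusThree
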