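import Pool.Agent.H77.RL.Latt

namespace Pool.Agent.Results.MP_173ebf_co.RelationLattice

open Finset Pool.Agent.H54.Radon Pool.Agent.H77.RL

/-- The affine lattice generated by the Radon vectors of `m` points in general position. -/
theorem result (d m : ℕ) (hd : 2 ≤ d) (hm : d + 2 ≤ m) (v : Fin (m / 2) → ℤ) :
    v ∈ affineSpan ℤ (radonVecs d m GenPos) ↔
      (∑ i, v i = ∑ k ∈ Icc (d + 1) (m - 1), ((m - 1).choose k : ℤ)) ∧
      (Odd d → Even m → ∑ i : Fin (m / 2), (-1 : ℤ) ^ ((i : ℕ) + 1) * v i = 0) :=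
  genPos_lattice hd hm v

end Pool.Agent.Results.MP_173ebf_co.RelationLattice
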