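import Pool.Agent.H54.Radon.SuppSuff

namespace Pool.Agent.Results.MP_173ebf_co.Supports

open Pool.Agent.H54.Radon

/-- Which sets of coordinates of a Radon vector can be the nonzero ones, for all `d` and `m`. -/
theorem result (d : ℕ) (hd : 1 ≤ d) (m : ℕ) (Z : Finset ℕ) :
    (∃ S : Finset (Fin d → ℝ), S.card = m ∧
      ∀ s, s ∈ Z ↔ (1 ≤ s ∧ s ≤ m / 2 ∧ 0 < radonCount S s)) ↔ IsSupp d m Z :=
  supp_main hd Z

end Pool.Agent.Results.MP_173ebf_co.Supports
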