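import Pool.Agent.H77.RL.Latt

namespace Pool.Agent.Results.MP_173ebf_co.UnitSteps

open Finset Pool.Agent.H54.Radon Pool.Agent.H77.RL

/-- Without the assumption of general position every unit vector is the difference of the Radon
vectors of two `m`-point sets; in particular there are no affine relations and no congruences. -/
theorem result (d m : ℕ) (hd : 2 ≤ d) (hm : 3 ≤ m) :
    (∀ i : Fin (m / 2), ∃ v ∈ radonVecs d m (fun _ => True),
      v + Pi.single i 1 ∈ radonVecs d m (fun _ => True)) ∧
    affineSpan ℤ (radonVecs d m (fun _ => True)) = ⊤ :=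
  ⟨unit_steps hd hm, all_lattice hd hm⟩

end Pool.Agent.Results.MP_173ebf_co.UnitSteps
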